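import Pool.Agent.H8.TX.Targets

/-!
# Numbers: the growth conditions with constants are satisfied at some scale (GRC)
-/

set_option autoImplicit false

open MvPolynomial
open Pool.Agent.H12.ZD (pmap)
open Pool.Agent.H18.HIT Pool.Agent.H18.HX Pool.Agent.H18.VZ
open Pool.Agent.H8.ZA (HFam Const NA)
open Pool.Agent.H8.TD (lc dg Wsp Cop dh)
open Pool.Agent.H8.TX

namespace Pool.Agent.H1.TX

theorem grc_sub (d : ℕ → ℕ) (hd : ∀ n, 1 ≤ d n) (hdd : ∀ m n, d (m + n) ≤ d m * d n) :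
    Subadditive (fun n => Real.log (d n)) := by
  intro m n
  have h1 : (0 : ℝ) < d m := by exact_mod_cast hd m
  have h2 : (0 : ℝ) < d n := by exact_mod_cast hd n
  have h3 : (0 : ℝ) < d (m + n) := by exact_mod_cast hd (m + n)
  change Real.log (d (m + n)) ≤ Real.log (d m) + Real.log (d n)
  rw [← Real.log_mul h1.ne' h2.ne']
  exact Real.log_le_log h3 (by exact_mod_cast hdd m n)

theorem grc_bdd (d : ℕ → ℕ) : BddBelow (Set.range fun n : ℕ => Real.log (d n) / n) := by
  refine ⟨0, ?_⟩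
  rintro _ ⟨n, rfl⟩
  exact div_nonneg (Real.log_natCast_nonneg _) (Nat.cast_nonneg _)

/-- the growth rate -/
theorem grc_lim (a : ℕ → ℕ) (c : ℝ) (hc : 0 < c) (ha : ∀ n, 1 ≤ a n)
    (haa : ∀ m n, a (m + n) ≤ a m * a n) (hgr : ∀ N, ∃ n ≥ N, c ^ n ≤ (a n : ℝ)) :
    ∃ L : ℝ, Real.log c ≤ L ∧ (∀ n : ℕ, 1 ≤ n → Real.exp (L * n) ≤ (a n : ℝ)) ∧
      ∀ δ : ℝ, 0 < δ → ∃ n₁ : ℕ, ∀ n : ℕ, n₁ ≤ n → (a n : ℝ) ≤ Real.exp ((L + δ) * n) := by
  have sd := grc_sub a ha haa
  have td := sd.tendsto_lim (grc_bdd a)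
  refine ⟨sd.lim, ?_, ?_, ?_⟩
  · by_contra hlt
    push Not at hlt
    have h1 : ∀ᶠ n : ℕ in Filter.atTop, Real.log (a n) / n < Real.log c :=
      td.eventually (gt_mem_nhds hlt)
    obtain ⟨N, hN⟩ := Filter.eventually_atTop.1 h1
    obtain ⟨n, hn, hcn⟩ := hgr (max N 1)
    have h2 := hN n ((le_max_left _ _).trans hn)
    have hn0 : (0 : ℝ) < n := by
      have : 1 ≤ n := (le_max_right _ _).trans hn
      exact_mod_cast this
    rw [div_lt_iff₀ hn0] at h2
    have h3 : Real.log (c ^ n) ≤ Real.log (a n) := Real.log_le_log (by positivity) hcn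
    rw [Real.log_pow] at h3
    linarith
  · intro n hn
    have hn0 : (0 : ℝ) < n := by exact_mod_cast hn
    have h1 : sd.lim ≤ Real.log (a n) / n := sd.lim_le_div (grc_bdd a) (by omega)
    rw [le_div_iff₀ hn0] at h1
    have h2 : (0 : ℝ) < a n := by exact_mod_cast ha n
    exact (Real.le_log_iff_exp_le h2).mp h1
  · intro δ hδ
    have h1 : ∀ᶠ n : ℕ in Filter.atTop, Real.log (a n) / n < sd.lim + δ :=
      td.eventually (gt_mem_nhds (by linarith))
    obtain ⟨N, hN⟩ := Filter.eventually_atTop.1 h1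
    refine ⟨max N 1, fun n hn => ?_⟩
    have hn0 : (0 : ℝ) < n := by
      have : 1 ≤ n := (le_max_right _ _).trans hn
      exact_mod_cast this
    have h2 := hN n ((le_max_left _ _).trans hn)
    rw [div_lt_iff₀ hn0] at h2
    have h3 : (0 : ℝ) < a n := by exact_mod_cast ha n
    exact (Real.log_le_iff_le_exp h3).mp h2.le

theorem pf_GRC : T_GRC := by
  intro a Y M e R Λ c ha hR haa he hec hgr hM1 hM2
  have he0 : (0 : ℝ) < e := by exact_mod_cast he
  have hR0 : (0 : ℝ) < R := by exact_mod_cast hR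
  have hc0 : 0 < c := he0.trans hec
  obtain ⟨L, hcL, hlo', hup'⟩ := grc_lim (fun n => R * a n) c hc0
    (fun n => Nat.one_le_iff_ne_zero.mpr (Nat.mul_ne_zero (by omega)
      (Nat.one_le_iff_ne_zero.mp (ha n))))
    (fun m n => by
      calc R * a (m + n) ≤ R * (R * (a m * a n)) := Nat.mul_le_mul_left _ (haa m n)
        _ = R * a m * (R * a n) := by ring)
    (fun N => by
      obtain ⟨n, hn, h⟩ := hgr N
      exact ⟨n, hn, by push_cast; exact h⟩)
  -- the constant
  obtain ⟨W, hW⟩ : ∃ W : ℝ, W = (Λ : ℝ) + R := ⟨_, rfl⟩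
  have hΛ0 : (0 : ℝ) ≤ Λ := Nat.cast_nonneg _
  have hW0 : 0 ≤ W := by rw [hW]; positivity
  have hΛW : (Λ : ℝ) ≤ Real.exp W := by
    have h := Real.add_one_le_exp W
    rw [hW] at h ⊢
    linarith
  have hRW : (R : ℝ) ≤ Real.exp W := by
    have h := Real.add_one_le_exp W
    rw [hW] at h ⊢
    linarith
  have hlo : ∀ n : ℕ, 1 ≤ n → Real.exp (L * n - W) ≤ (a n : ℝ) := by
    intro n hn
    have h1 := hlo' n hn
    push_cast at h1
    have h2 : (R : ℝ) * a n ≤ Real.exp W * a n :=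
      mul_le_mul_of_nonneg_right hRW (Nat.cast_nonneg _)
    have h3 : Real.exp (L * n) = Real.exp W * Real.exp (L * n - W) := by
      rw [← Real.exp_add]
      congr 1
      ring
    rw [h3] at h1
    exact le_of_mul_le_mul_left (h1.trans h2) (Real.exp_pos _)
  have hup : ∀ δ : ℝ, 0 < δ → ∃ n₁ : ℕ, ∀ n : ℕ, n₁ ≤ n →
      (a n : ℝ) ≤ Real.exp ((L + δ) * n) := by
    intro δ hδ
    obtain ⟨n₁, h⟩ := hup' δ hδ
    refine ⟨n₁, fun n hn => ?_⟩
    have h1 := h n hn
    push_cast at h1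
    have h2 : (1 : ℝ) * a n ≤ (R : ℝ) * a n :=
      mul_le_mul_of_nonneg_right (by exact_mod_cast hR) (Nat.cast_nonneg _)
    linarith
  obtain ⟨ε, hε⟩ : ∃ ε, ε = Real.log e := ⟨_, rfl⟩
  have hε0 : 0 ≤ ε := by
    rw [hε]
    exact Real.log_nonneg (by exact_mod_cast he)
  have hεL : ε < L := by
    rw [hε]
    exact (Real.log_lt_log he0 hec).trans_le hcL
  obtain ⟨δ, hδ⟩ : ∃ δ, δ = (L - ε) / 14 := ⟨_, rfl⟩
  have hδ0 : 0 < δ := by
    rw [hδ]
    linarith
  have hLe : L = ε + 14 * δ := by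
    rw [hδ]
    ring
  obtain ⟨n₁, hn₁⟩ := hup δ hδ0
  obtain ⟨k, hk⟩ := exists_nat_ge ((W + 1) / δ)
  obtain ⟨m, hm⟩ : ∃ m, m = max (max n₁ 1) k := ⟨_, rfl⟩
  have hm1 : 1 ≤ m := by omega
  have hmn : n₁ ≤ m := by omega
  have hmδ : W + 1 ≤ δ * (m : ℝ) := by
    have h1 : (k : ℝ) ≤ m := by
      have : k ≤ m := by omega
      exact_mod_cast this
    have h2 : (W + 1) / δ ≤ (m : ℝ) := hk.trans h1
    rw [div_le_iff₀ hδ0] at h2
    linarith
  have hm0 : (0 : ℝ) ≤ m := Nat.cast_nonneg m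
  have hmε : 0 ≤ ε * m := mul_nonneg hε0 hm0
  -- the numbers
  have hem : ((e : ℝ)) ^ m = Real.exp (ε * m) := by
    rw [hε, mul_comm, Real.exp_nat_mul, Real.exp_log he0]
  have hem2 : ((e : ℝ)) ^ (m + m) = Real.exp (2 * (ε * m)) := by
    rw [pow_add, hem, ← Real.exp_add]
    congr 1
    ring
  have u1 : (a m : ℝ) ≤ Real.exp ((L + δ) * m) := hn₁ m hmn
  have u2 : (a (m + m) : ℝ) ≤ Real.exp (2 * ((L + δ) * m)) := by
    have h := hn₁ (m + m) (by omega)
    have e1 : (L + δ) * ((m + m : ℕ) : ℝ) = 2 * ((L + δ) * m) := by push_cast; ring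
    rwa [e1] at h
  have l4 : Real.exp (4 * (L * m) - W) ≤ (a (m + m + (m + m)) : ℝ) := by
    have h := hlo (m + m + (m + m)) (by omega)
    have e1 : L * ((m + m + (m + m) : ℕ) : ℝ) - W = 4 * (L * m) - W := by push_cast; ring
    rwa [e1] at h
  by_contra hno
  push Not at hno
  have hg1 := (hno (m + m) (by omega)).1
  have hg2 := (hno m hm1).2
  unfold HI at hg1
  unfold HII at hg2
  -- the first condition of `HI` at `2 m`
  have c1 : Λ * (a (m + m) * e ^ (m + m)) < a (m + m + (m + m)) := by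
    have h : (Λ : ℝ) * ((a (m + m) : ℝ) * (e : ℝ) ^ (m + m)) < a (m + m + (m + m)) := by
      rw [hem2]
      calc (Λ : ℝ) * ((a (m + m) : ℝ) * Real.exp (2 * (ε * m)))
          ≤ Real.exp W * (Real.exp (2 * ((L + δ) * m)) * Real.exp (2 * (ε * m))) := by
            refine mul_le_mul hΛW ?_ (by positivity) (Real.exp_pos _).le
            exact mul_le_mul_of_nonneg_right u2 (Real.exp_pos _).le
        _ = Real.exp (W + (2 * ((L + δ) * m) + 2 * (ε * m))) := by
            rw [Real.exp_add, Real.exp_add]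
        _ < Real.exp (4 * (L * m) - W) := by
            rw [Real.exp_lt_exp, hLe]
            nlinarith
        _ ≤ _ := l4
    exact_mod_cast h
  have c2 : a (m + m + (m + m)) ^ 2 < Λ * (M (m + m) * a (m + m)) := by
    by_contra h
    push Not at h
    exact hg1 ⟨c1, h⟩
  have c3 : a (m + m + (m + m)) ^ 2 < Λ * ((a (m + m) * Y (m + m)) * a (m + m)) := by
    refine c2.trans_le ?_
    exact Nat.mul_le_mul_left _ (Nat.mul_le_mul_right _ (hM1 (m + m)))
  -- `Y (2 m)` is large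
  have hY : Real.exp (4 * (L * m) - 4 * (δ * m) - 3 * W) < (Y (m + m) : ℝ) := by
    have h1 : ((a (m + m + (m + m)) : ℝ)) ^ 2 <
        Λ * (((a (m + m) : ℝ) * Y (m + m)) * a (m + m)) := by exact_mod_cast c3
    have h2 : Real.exp (4 * (L * m) - W) ^ 2 ≤ ((a (m + m + (m + m)) : ℝ)) ^ 2 :=
      pow_le_pow_left₀ (Real.exp_pos _).le l4 2
    have hYn : (0 : ℝ) ≤ Y (m + m) := Nat.cast_nonneg _
    have h3 : Λ * (((a (m + m) : ℝ) * Y (m + m)) * a (m + m)) ≤
        Real.exp W * ((Real.exp (2 * ((L + δ) * m)) * Y (m + m)) *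
          Real.exp (2 * ((L + δ) * m))) := by
      refine mul_le_mul hΛW (mul_le_mul (mul_le_mul_of_nonneg_right u2 hYn) u2 ?_ ?_) ?_ ?_
      · exact Nat.cast_nonneg _
      · positivity
      · positivity
      · exact (Real.exp_pos _).le
    have h4 := (h2.trans_lt h1).trans_le h3
    have h5 : Real.exp W * ((Real.exp (2 * ((L + δ) * m)) * Y (m + m)) *
          Real.exp (2 * ((L + δ) * m))) = Real.exp (W + 4 * ((L + δ) * m)) * Y (m + m) := by
      have e1 : W + 4 * ((L + δ) * m) =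
          W + 2 * ((L + δ) * m) + 2 * ((L + δ) * m) := by ring
      rw [e1, Real.exp_add, Real.exp_add]
      ring
    have h6 : Real.exp (4 * (L * m) - W) ^ 2 =
        Real.exp (W + 4 * ((L + δ) * m)) * Real.exp (4 * (L * m) - 4 * (δ * m) - 3 * W) := by
      rw [← Real.exp_nat_mul, ← Real.exp_add]
      congr 1
      push_cast
      ring
    rw [h5, h6] at h4
    exact lt_of_mul_lt_mul_left h4 (Real.exp_pos _).le
  -- `M m`
  have hMm : (M m : ℝ) ≤ Real.exp (W + 3 * ((L + δ) * m)) := by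
    have h1 : (M m : ℝ) ≤ (R : ℝ) * ((a m : ℝ) * a (m + m)) := by exact_mod_cast hM2 m
    have h2 : (R : ℝ) * ((a m : ℝ) * a (m + m)) ≤
        Real.exp W * (Real.exp ((L + δ) * m) * Real.exp (2 * ((L + δ) * m))) :=
      mul_le_mul hRW (mul_le_mul u1 u2 (Nat.cast_nonneg _) (Real.exp_pos _).le)
        (by positivity) (Real.exp_pos _).le
    have h3 : Real.exp W * (Real.exp ((L + δ) * m) * Real.exp (2 * ((L + δ) * m))) =
        Real.exp (W + 3 * ((L + δ) * m)) := by
      rw [← Real.exp_add, ← Real.exp_add]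
      congr 1
      ring
    rw [← h3]
    exact h1.trans h2
  have hMn : (0 : ℝ) ≤ M m := Nat.cast_nonneg _
  refine hg2 ⟨?_, ?_⟩
  · have h : (Λ : ℝ) * ((M m : ℝ) * (e : ℝ) ^ m) < Y (m + m) := by
      rw [hem]
      calc (Λ : ℝ) * ((M m : ℝ) * Real.exp (ε * m))
          ≤ Real.exp W * (Real.exp (W + 3 * ((L + δ) * m)) * Real.exp (ε * m)) := by
            refine mul_le_mul hΛW ?_ (by positivity) (Real.exp_pos _).le
            exact mul_le_mul_of_nonneg_right hMm (Real.exp_pos _).le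
        _ = Real.exp (W + ((W + 3 * ((L + δ) * m)) + ε * m)) := by
            rw [← Real.exp_add, ← Real.exp_add]
        _ ≤ Real.exp (4 * (L * m) - 4 * (δ * m) - 3 * W) := by
            rw [Real.exp_le_exp, hLe]
            nlinarith
        _ < _ := hY
    exact_mod_cast h
  · have h : (Λ : ℝ) * ((e : ℝ) ^ m * ((a m : ℝ) * a m) * M m) ≤ (Y (m + m) : ℝ) ^ 2 := by
      rw [hem]
      have h1 : (a m : ℝ) * a m ≤ Real.exp ((L + δ) * m) * Real.exp ((L + δ) * m) :=
        mul_le_mul u1 u1 (Nat.cast_nonneg _) (Real.exp_pos _).le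
      calc (Λ : ℝ) * (Real.exp (ε * m) * ((a m : ℝ) * a m) * M m)
          ≤ Real.exp W * (Real.exp (ε * m) * (Real.exp ((L + δ) * m) * Real.exp ((L + δ) * m)) *
            Real.exp (W + 3 * ((L + δ) * m))) := by
            refine mul_le_mul hΛW (mul_le_mul (mul_le_mul_of_nonneg_left h1 (Real.exp_pos _).le)
              hMm hMn ?_) ?_ (Real.exp_pos _).le
            · positivity
            · positivity
        _ = Real.exp (W + ((ε * m + ((L + δ) * m + (L + δ) * m)) +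
            (W + 3 * ((L + δ) * m)))) := by
            rw [← Real.exp_add, ← Real.exp_add, ← Real.exp_add, ← Real.exp_add]
        _ ≤ Real.exp (2 * (4 * (L * m) - 4 * (δ * m) - 3 * W)) := by
            rw [Real.exp_le_exp, hLe]
            nlinarith
        _ = Real.exp (4 * (L * m) - 4 * (δ * m) - 3 * W) ^ 2 := by
            rw [← Real.exp_nat_mul]
            push_cast
            rfl
        _ ≤ _ := pow_le_pow_left₀ (Real.exp_pos _).le hY.le 2
    exact_mod_cast h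

end Pool.Agent.H1.TX
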