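import Pool.Agent.H8.TX.Targets
import Pool.Agent.H8.TD.Line2

/-!
# Lower bound for the heights of the conjugates of an algebraic function along a line (STX)
-/

set_option autoImplicit false

open MvPolynomial
open Pool.Agent.H12.ZD (pmap)
open Pool.Agent.H18.HIT Pool.Agent.H18.HX Pool.Agent.H18.VZ
open Pool.Agent.H8.ZA (HFam Const NA)
open Pool.Agent.H8.TD (lc dg Wsp Cop dh)
open Pool.Agent.H8.TX

namespace Pool.Agent.H1.TX

theorem mxn_le {m : ℕ} (v : AbsoluteValue Qb ℝ) (x : Fin m → Qb) {A : ℝ} (hA : 0 ≤ A)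
    (h : ∀ j, v (x j) ≤ A) : mxn v x ≤ A :=
  (Finset.fold_max_le _).mpr ⟨hA, fun j _ => h j⟩

theorem le_mxn {m : ℕ} (v : AbsoluteValue Qb ℝ) (x : Fin m → Qb) (j : Fin m) :
    v (x j) ≤ mxn v x :=
  (Finset.le_fold_max _).mpr (Or.inr ⟨j, Finset.mem_univ j, le_rfl⟩)

theorem szn_one (v : AbsoluteValue Qb ℝ) (z : Qb) : szn v ![z] = max 1 (v z) := by
  apply le_antisymm
  · refine (Finset.fold_max_le _).mpr ⟨le_max_left _ _, fun j _ => ?_⟩
    have h : (![z] : Fin 1 → Qb) j = z := by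
      fin_cases j
      rfl
    rw [h]
    exact le_max_right _ _
  · refine max_le ((Finset.le_fold_max _).mpr (Or.inl le_rfl))
      ((Finset.le_fold_max _).mpr (Or.inr ⟨0, Finset.mem_univ _, ?_⟩))
    exact le_rfl

/-- the upper bound for the height of the coefficients -/
theorem hp_le {K₀ : IntermediateField ℚ Qb} (F : HFam K₀) (n r : ℕ) (x : Fin (n + 1) → Qb)
    (ψ : Fin r → Qb) (h0 : x (Fin.last n) ≠ 0) (hK : x (Fin.last n) ∈ K₀)
    (hb : ∀ v : AbsoluteValue Qb ℝ, ∀ j,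
      v (x j) ≤ 2 ^ r * (v (x (Fin.last n)) * ∏ j, max 1 (v (ψ j))) ∧
      (NA v → v (x j) ≤ v (x (Fin.last n)) * ∏ j, max 1 (v (ψ j)))) :
    hp F x ≤ ∑ j, Pool.Agent.H8.TX.hn F ![ψ j] + F.arch.card * (r * Real.log 2) := by
  classical
  -- a finite set of places
  have hfinx : ∀ z : Qb, {i | z ≠ 0 ∧ F.abv i z ≠ 1}.Finite := by
    intro z
    by_cases hz : z = 0
    · have : {i | z ≠ 0 ∧ F.abv i z ≠ 1} = ∅ := by
        ext i
        simp [hz]
      rw [this]
      exact Set.finite_empty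
    · exact (F.finite z hz).subset fun i hi => hi.2
  have hfin : (((⋃ j, {i | x j ≠ 0 ∧ F.abv i (x j) ≠ 1}) ∪
      (⋃ j, {i | ψ j ≠ 0 ∧ F.abv i (ψ j) ≠ 1})) ∪ (F.arch : Set F.ι)).Finite :=
    ((Set.finite_iUnion fun j => hfinx (x j)).union
      (Set.finite_iUnion fun j => hfinx (ψ j))).union F.arch.finite_toSet
  obtain ⟨S, hS⟩ : ∃ S, S = hfin.toFinset := ⟨_, rfl⟩
  have hSx : ∀ i, i ∉ S → ∀ j, x j ≠ 0 → F.abv i (x j) = 1 := by
    intro i hi j hj
    by_contra hne
    apply hi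
    rw [hS, Set.Finite.mem_toFinset]
    exact Or.inl (Or.inl (Set.mem_iUnion.mpr ⟨j, hj, hne⟩))
  have hSψ : ∀ i, i ∉ S → ∀ j, ψ j ≠ 0 → F.abv i (ψ j) = 1 := by
    intro i hi j hj
    by_contra hne
    apply hi
    rw [hS, Set.Finite.mem_toFinset]
    exact Or.inl (Or.inr (Set.mem_iUnion.mpr ⟨j, hj, hne⟩))
  have hSa : F.arch ⊆ S := by
    intro i hi
    rw [hS, Set.Finite.mem_toFinset]
    exact Or.inr hi
  -- the sums are over `S`
  have e1 : hp F x = ∑ i ∈ S, Real.log (mxn (F.abv i) x) := by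
    apply finsum_eq_sum_of_support_subset
    intro i hi
    by_contra hiS
    have hiS' : i ∉ S := hiS
    apply hi
    have h1 : mxn (F.abv i) x = 1 := by
      apply le_antisymm
      · apply mxn_le _ _ zero_le_one
        intro j
        by_cases hj : x j = 0
        · rw [hj, map_zero]
          exact zero_le_one
        · exact (hSx i hiS' j hj).le
      · rw [← hSx i hiS' (Fin.last n) h0]
        exact le_mxn _ _ _
    change Real.log (mxn (F.abv i) x) = 0
    rw [h1, Real.log_one]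
  have e2 : ∀ j, Pool.Agent.H8.TX.hn F ![ψ j] = ∑ i ∈ S, Real.log (max 1 (F.abv i (ψ j))) := by
    intro j
    unfold Pool.Agent.H8.TX.hn
    simp only [szn_one]
    apply finsum_eq_sum_of_support_subset
    intro i hi
    by_contra hiS
    have hiS' : i ∉ S := hiS
    apply hi
    have h1 : max 1 (F.abv i (ψ j)) = 1 := by
      by_cases hj : ψ j = 0
      · rw [hj, map_zero]
        exact max_eq_left zero_le_one
      · rw [hSψ i hiS' j hj, max_self]
    change Real.log (max 1 (F.abv i (ψ j))) = 0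
    rw [h1, Real.log_one]
  have e3 : ∑ i ∈ S, Real.log (F.abv i (x (Fin.last n))) = 0 := by
    rw [← F.prod _ hK h0]
    symm
    apply finsum_eq_sum_of_support_subset
    intro i hi
    by_contra hiS
    have hiS' : i ∉ S := hiS
    apply hi
    change Real.log (F.abv i (x (Fin.last n))) = 0
    rw [hSx i hiS' _ h0, Real.log_one]
  have e4 : ∑ i ∈ S, (if i ∈ F.arch then (r : ℝ) * Real.log 2 else 0) =
      F.arch.card * (r * Real.log 2) := by
    rw [Finset.sum_ite_mem, Finset.inter_eq_right.mpr hSa, Finset.sum_const, nsmul_eq_mul]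
  rw [e1, Finset.sum_congr rfl fun j _ => e2 j, Finset.sum_comm, ← e4, ← Finset.sum_add_distrib]
  have e5 : ∑ i ∈ S, (∑ j, Real.log (max 1 (F.abv i (ψ j))) +
      if i ∈ F.arch then (r : ℝ) * Real.log 2 else 0) =
      ∑ i ∈ S, (Real.log (F.abv i (x (Fin.last n))) +
        (∑ j, Real.log (max 1 (F.abv i (ψ j))) +
      if i ∈ F.arch then (r : ℝ) * Real.log 2 else 0)) := by
    rw [Finset.sum_add_distrib (f := fun i => Real.log (F.abv i (x (Fin.last n)))), e3, zero_add]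
  rw [e5]
  apply Finset.sum_le_sum
  intro i _
  have hpos : 0 < F.abv i (x (Fin.last n)) := (F.abv i).pos h0
  have hmax : ∀ j, 0 < max 1 (F.abv i (ψ j)) := fun j => lt_max_of_lt_left zero_lt_one
  have hprod : 0 < ∏ j, max 1 (F.abv i (ψ j)) := Finset.prod_pos fun j _ => hmax j
  have hm : 0 < mxn (F.abv i) x := hpos.trans_le (le_mxn _ _ _)
  have hlog : Real.log (F.abv i (x (Fin.last n)) * ∏ j, max 1 (F.abv i (ψ j))) =
      Real.log (F.abv i (x (Fin.last n))) + ∑ j, Real.log (max 1 (F.abv i (ψ j))) := by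
    rw [Real.log_mul hpos.ne' hprod.ne', Real.log_prod fun j _ => (hmax j).ne']
  by_cases hi : i ∈ F.arch
  · rw [if_pos hi]
    have h1 : mxn (F.abv i) x ≤ 2 ^ r *
        (F.abv i (x (Fin.last n)) * ∏ j, max 1 (F.abv i (ψ j))) :=
      mxn_le _ _ (by positivity) fun j => (hb (F.abv i) j).1
    have h2 := Real.log_le_log hm h1
    rw [Real.log_mul (by positivity) (mul_pos hpos hprod).ne', Real.log_pow, hlog] at h2
    linarith
  · rw [if_neg hi]
    have h1 : mxn (F.abv i) x ≤ F.abv i (x (Fin.last n)) * ∏ j, max 1 (F.abv i (ψ j)) :=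
      mxn_le _ _ (mul_pos hpos hprod).le fun j => (hb (F.abv i) j).2 (F.na i hi)
    have h2 := Real.log_le_log hm h1
    rw [hlog] at h2
    linarith

theorem pf_STX (hLNY : T_LNY) (hGSX : T_GSX) : T_STX := by
  intro P p q r D n Cf B w v hN hv hw K₀ F hK
  have hzero : ∀ (z : Fin 4 → Qb) (j : ℕ), eval z (Cf j) ≠ 0 → j ≤ n := by
    intro z j hj
    by_contra hlt
    push Not at hlt
    rw [hN.zero j hlt, map_zero] at hj
    exact hj rfl
  obtain ⟨c1, hc1⟩ := hLNY n D (fun j : Fin (n + 1) => Pool.Agent.H8.TD.ln w v (Cf j))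
    (fun i => (Pool.Agent.H8.TD.ln_coeff (hN.hom i) w v).1) (by
      obtain ⟨j, hj⟩ := hv
      refine ⟨⟨j, Nat.lt_succ_of_le (hzero v j hj)⟩, ?_⟩
      change (Pool.Agent.H8.TD.ln w v (Cf j)).coeff D ≠ 0
      rw [(Pool.Agent.H8.TD.ln_coeff (hN.hom j) w v).2]
      exact hj) (by
      intro t
      obtain ⟨j, hj⟩ := hw t
      refine ⟨⟨j, Nat.lt_succ_of_le (hzero _ j hj)⟩, ?_⟩
      change (Pool.Agent.H8.TD.ln w v (Cf j)).eval t ≠ 0
      rw [Pool.Agent.H8.TD.eval_ln]
      exact hj) K₀ F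
  refine ⟨c1 + F.arch.card * (r * Real.log 2), ?_⟩
  intro t ht hB u hu
  obtain ⟨hq, hn0, hdiv⟩ := hN.spc _ hB u hu
  have h1 := hc1 t ht
  simp only [Pool.Agent.H8.TD.eval_ln] at h1
  have h2 := hp_le F n r (fun j : Fin (n + 1) => eval (fun i => w i + (t : Qb) * v i) (Cf j))
    (fun j => eval (Fin.cons (u j) (fun i => w i + (t : Qb) * v i) : Fin 5 → Qb) p /
        eval (Fin.cons (u j) (fun i => w i + (t : Qb) * v i) : Fin 5 → Qb) q)
    hn0 (hK t) (by
      intro V j
      exact hGSX V n r (fun j => eval (fun i => w i + (t : Qb) * v i) (Cf j)) _ hn0 hdiv j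
        (Nat.lt_succ_iff.mp j.2))
  have h3 := (abs_le.mp h1).1
  linarith

end Pool.Agent.H1.TX
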